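import Mathlib

set_option autoImplicit false

namespace Pool.Agent.Results.MP_00f561_co.Counter

/-- A round circle in R^3: the points of the plane through `c` with normal vector `n` at
distance `r` from `c`. -/
def IsCircle (S : Set (EuclideanSpace ℝ (Fin 3))) : Prop :=
  ∃ (c n : EuclideanSpace ℝ (Fin 3)) (r : ℝ), n ≠ 0 ∧ 0 < r ∧
    S = {x | inner ℝ n (x - c) = 0 ∧ dist x c = r}

noncomputable def a (i : Fin 10) : ℝ := ((i : ℕ) + 1) / 100
noncomputable def b (j : Fin 10) : ℝ := (19 - (j : ℕ)) / 100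
noncomputable def s (t : ℝ) : ℝ := Real.sqrt (1 - t ^ 2)

noncomputable def BB (t : ℝ) : Set (EuclideanSpace ℝ (Fin 3)) :=
  {x | x 2 = s t ∧ (x 0 - t) ^ 2 + x 1 ^ 2 = 1}
noncomputable def RR (t : ℝ) : Set (EuclideanSpace ℝ (Fin 3)) :=
  {x | x 1 = s t ∧ (x 0 - t) ^ 2 + x 2 ^ 2 = 1}

theorem dist_iff (x c : EuclideanSpace ℝ (Fin 3)) :
    dist x c = 1 ↔ (x 0 - c 0) ^ 2 + (x 1 - c 1) ^ 2 + (x 2 - c 2) ^ 2 = 1 := by
  rw [EuclideanSpace.dist_eq, Real.sqrt_eq_one, Fin.sum_univ_three]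
  simp only [Real.dist_eq, sq_abs]

theorem BB_circ (t : ℝ) : IsCircle (BB t) := by
  refine ⟨!₂[t, 0, s t], !₂[0, 0, 1], 1, ?_, one_pos, ?_⟩
  · intro h; have := congrArg (fun v : EuclideanSpace ℝ (Fin 3) => v 2) h; simp at this
  · ext x
    simp only [BB, Set.mem_setOf_eq, dist_iff, PiLp.inner_apply, Fin.sum_univ_three]
    simp
    constructor
    · rintro ⟨h1, h2⟩; exact ⟨by rw [h1]; ring, by rw [h1]; linarith⟩
    · rintro ⟨h1, h2⟩
      have : x 2 = s t := by linarith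
      exact ⟨this, by rw [this] at h2; linarith⟩

theorem RR_circ (t : ℝ) : IsCircle (RR t) := by
  refine ⟨!₂[t, s t, 0], !₂[0, 1, 0], 1, ?_, one_pos, ?_⟩
  · intro h; have := congrArg (fun v : EuclideanSpace ℝ (Fin 3) => v 1) h; simp at this
  · ext x
    simp only [RR, Set.mem_setOf_eq, dist_iff, PiLp.inner_apply, Fin.sum_univ_three]
    simp
    constructor
    · rintro ⟨h1, h2⟩; exact ⟨by rw [h1]; ring, by rw [h1]; linarith⟩
    · rintro ⟨h1, h2⟩
      have : x 1 = s t := by linarith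
      exact ⟨this, by rw [this] at h2; linarith⟩

theorem s_sq (t : ℝ) (h0 : 0 < t) (h1 : t < 1) : s t ^ 2 = 1 - t ^ 2 :=
  Real.sq_sqrt (by nlinarith)

theorem s_inj (t u : ℝ) (h0 : 0 < t) (h1 : t < 1) (h2 : 0 < u) (h3 : u < 1) (h : s t = s u) :
    t = u := by
  have e1 := s_sq t h0 h1
  have e2 := s_sq u h2 h3
  rw [h] at e1
  have : (t - u) * (t + u) = 0 := by linarith
  rcases mul_eq_zero.1 this with h | h <;> linarith

theorem a_bd (i : Fin 10) : 0 < a i ∧ a i < 1 := by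
  have : ((i : ℕ) : ℝ) < 10 := by exact_mod_cast i.2
  have : (0 : ℝ) ≤ (i : ℕ) := Nat.cast_nonneg _
  unfold a; constructor <;> linarith

theorem b_bd (i : Fin 10) : 0 < b i ∧ b i < 1 := by
  have : ((i : ℕ) : ℝ) < 10 := by exact_mod_cast i.2
  have : (0 : ℝ) ≤ (i : ℕ) := Nat.cast_nonneg _
  unfold b; constructor <;> linarith

theorem result : ∃ B R : Fin 10 → Set (EuclideanSpace ℝ (Fin 3)),
    (∀ i, IsCircle (B i)) ∧ (∀ j, IsCircle (R j)) ∧
    Pairwise (fun i i' => Disjoint (B i) (B i')) ∧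
    Pairwise (fun j j' => Disjoint (R j) (R j')) ∧
    (∀ i j, (i, j) ≠ (9, 9) → ∃! x, x ∈ B i ∩ R j) ∧
    ∃ x y, x ≠ y ∧ x ∈ B 9 ∩ R 9 ∧ y ∈ B 9 ∩ R 9 := by
  refine ⟨fun i => BB (a i), fun j => RR (b j), fun i => BB_circ _, fun j => RR_circ _, ?_, ?_, ?_, ?_⟩
  · intro i i' h
    refine Set.disjoint_left.2 fun x hx hx' => h ?_
    have := s_inj _ _ (a_bd i).1 (a_bd i).2 (a_bd i').1 (a_bd i').2 (hx.1.symm.trans hx'.1)
    unfold a at this
    have h2 : ((i : ℕ) : ℝ) = (i' : ℕ) := by linarith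
    exact Fin.ext (by exact_mod_cast h2)
  · intro i i' h
    refine Set.disjoint_left.2 fun x hx hx' => h ?_
    have := s_inj _ _ (b_bd i).1 (b_bd i).2 (b_bd i').1 (b_bd i').2 (hx.1.symm.trans hx'.1)
    unfold b at this
    have h2 : ((i : ℕ) : ℝ) = (i' : ℕ) := by linarith
    exact Fin.ext (by exact_mod_cast h2)
  · intro i j hij
    have hne : a i ≠ b j := by
      intro h
      unfold a b at h
      have h1 : ((i : ℕ) : ℝ) + (j : ℕ) = 18 := by linarith
      have h2 : (i : ℕ) + (j : ℕ) = 18 := by exact_mod_cast h1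
      apply hij
      have := i.2
      have := j.2
      refine Prod.ext (Fin.ext ?_) (Fin.ext ?_) <;> simp <;> omega
    have e1 := s_sq _ (a_bd i).1 (a_bd i).2
    have e2 := s_sq _ (b_bd j).1 (b_bd j).2
    refine ⟨!₂[a i + b j, s (b j), s (a i)], ⟨⟨by simp, by simp; linarith⟩, ⟨by simp, by simp; linarith⟩⟩,
      ?_⟩
    rintro x ⟨⟨h1, h2⟩, ⟨h3, h4⟩⟩
    rw [h3] at h2
    rw [h1] at h4
    have h5 : (a i - b j) * (x 0 - (a i + b j)) = 0 := by linarith
    have h6 : x 0 = a i + b j := by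
      have := (mul_eq_zero.1 h5).resolve_left (sub_ne_zero.2 hne); linarith
    ext k
    fin_cases k
    · simpa using h6
    · simpa using h3
    · simpa using h1
  · have e : a 9 = b 9 := by unfold a b; norm_num
    have e1 := s_sq _ (b_bd 9).1 (b_bd 9).2
    refine ⟨!₂[2 * b 9, s (b 9), s (b 9)], !₂[0, s (b 9), s (b 9)], ?_, ?_, ?_⟩
    · intro h
      have := congrArg (fun v : EuclideanSpace ℝ (Fin 3) => v 0) h
      simp at this
      linarith [(b_bd 9).1]
    · simp only [e]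
      exact ⟨⟨by simp, by simp; linarith⟩, ⟨by simp, by simp; linarith⟩⟩
    · simp only [e]
      exact ⟨⟨by simp, by simp; linarith⟩, ⟨by simp, by simp; linarith⟩⟩

end Pool.Agent.Results.MP_00f561_co.Counter
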